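import Mathlib

/-!
# Continuous finite-dimensional representations of topological groups
-/

open TensorProduct

namespace Pool.Agent.X307.LO

/-- A finite-dimensional representation of `G` over `E` with continuous matrix coefficients. -/
structure CRep (E : Type) [Field E] [TopologicalSpace E] (G : Type) [Group G]
    [TopologicalSpace G] where
  V : Type
  [grp : AddCommGroup V]
  [mod : Module E V]
  [fd : FiniteDimensional E V]
  ρ : Representation E G V
  cont : ∀ (v : V) (f : Module.Dual E V), Continuous fun g => f (ρ g v)

attribute [instance] CRep.grp CRep.mod CRep.fd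

/-- A character of `G` with values in `E` which is continuous. -/
structure CChar (E : Type) [Field E] [TopologicalSpace E] (G : Type) [Group G]
    [TopologicalSpace G] where
  χ : G →* E
  cont : Continuous χ

section

variable {E : Type} [Field E] [TopologicalSpace E] [IsTopologicalRing E]
  {G : Type} [Group G] [TopologicalSpace G] {H : Type} [Group H] [TopologicalSpace H]

/-- The action of `G` on `A`. -/
def CRep.act (A : CRep E G) (g : G) (v : A.V) : A.V := A.ρ g v

/-- `B` is a quotient of `A`. -/
def IsQuot (A B : CRep E G) : Prop :=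
  ∃ f : A.V →ₗ[E] B.V, Function.Surjective f ∧ ∀ g v, f (A.act g v) = B.act g (f v)

/-- `A ≠ 0` has no stable subspaces except `0` and `A`. -/
def Irr (A : CRep E G) : Prop :=
  Nontrivial A.V ∧ ∀ N : Submodule E A.V, (∀ g, ∀ v ∈ N, A.act g v ∈ N) → N = ⊥ ∨ N = ⊤

/-- The determinant of `A` has finite order. -/
def DetFinite (A : CRep E G) : Prop := ∃ n : ℕ, 0 < n ∧ ∀ g, (LinearMap.det (A.ρ g)) ^ n = 1

/-- The representation `A ∘ φ` of `H`. -/
def CRep.comap (A : CRep E G) (φ : H →* G) (hφ : Continuous φ) : CRep E H where
  V := A.V
  ρ := A.ρ.comp φ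
  cont v f := (A.cont v f).comp hφ

/-- The character `χ ∘ φ` of `H`. -/
def CChar.comap (χ : CChar E G) (φ : H →* G) (hφ : Continuous φ) : CChar E H where
  χ := χ.χ.comp φ
  cont := χ.cont.comp hφ

/-- The product of two characters. -/
def CChar.mul (χ ψ : CChar E G) : CChar E G where
  χ := χ.χ * ψ.χ
  cont := χ.cont.mul ψ.cont

/-- The twist of `A` by a character. -/
def CRep.twist (A : CRep E G) (χ : CChar E G) : CRep E G where
  V := A.V
  ρ :=
    { toFun := fun g => χ.χ g • A.ρ g
      map_one' := by simp
      map_mul' := fun g h => by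
        rw [map_mul, map_mul, smul_mul_smul_comm] }
  cont v f := by
    have h : (fun g => f ((χ.χ g • A.ρ g) v)) = fun g => χ.χ g * f (A.ρ g v) := by
      funext g
      simp
    exact h ▸ χ.cont.mul (A.cont v f)

theorem continuous_coord (A : CRep E G) (v : A.V) (i : Fin (Module.finrank E A.V)) :
    Continuous fun g => (Module.finBasis E A.V).repr (A.ρ g v) i :=
  A.cont v ((Module.finBasis E A.V).coord i)

/-- The tensor product. -/
noncomputable def CRep.tensor (A B : CRep E G) : CRep E G where
  V := A.V ⊗[E] B.V
  ρ := A.ρ.tprod B.ρ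
  cont v f := by
    induction v using TensorProduct.induction_on with
    | zero => simpa using continuous_const
    | tmul x y =>
      have h : (fun g => f ((A.ρ.tprod B.ρ) g (x ⊗ₜ[E] y))) = fun g =>
          ∑ i, ∑ j, (Module.finBasis E A.V).repr (A.ρ g x) i *
            (Module.finBasis E B.V).repr (B.ρ g y) j *
              f (Module.finBasis E A.V i ⊗ₜ[E] Module.finBasis E B.V j) := by
        funext g
        have h1 : (A.ρ.tprod B.ρ) g (x ⊗ₜ[E] y) = A.ρ g x ⊗ₜ[E] B.ρ g y := by
          simp [Representation.tprod_apply]
        rw [h1]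
        conv_lhs => rw [← (Module.finBasis E A.V).sum_repr (A.ρ g x),
          ← (Module.finBasis E B.V).sum_repr (B.ρ g y)]
        rw [TensorProduct.sum_tmul, map_sum]
        refine Finset.sum_congr rfl fun i _ => ?_
        rw [TensorProduct.tmul_sum, map_sum]
        refine Finset.sum_congr rfl fun j _ => ?_
        rw [TensorProduct.smul_tmul_smul, map_smul, smul_eq_mul]
      rw [h]
      exact continuous_finset_sum _ fun i _ => continuous_finset_sum _ fun j _ =>
        ((continuous_coord A x i).mul (continuous_coord B y j)).mul continuous_const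
    | add x y hx hy =>
      have h : (fun g => f ((A.ρ.tprod B.ρ) g (x + y))) = fun g =>
          f ((A.ρ.tprod B.ρ) g x) + f ((A.ρ.tprod B.ρ) g y) := by
        funext g
        rw [map_add, map_add]
      rw [h]
      exact hx.add hy

/-- The restriction to a stable subspace. -/
def CRep.sub (A : CRep E G) (N : Submodule E A.V) (h : ∀ g, ∀ v ∈ N, A.ρ g v ∈ N) : CRep E G where
  V := N
  ρ :=
    { toFun := fun g => (A.ρ g).restrict (h g)
      map_one' := by
        ext x
        simp [LinearMap.restrict_apply]
      map_mul' := fun a b => by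
        ext x
        simp [LinearMap.restrict_apply] }
  cont v f := by
    obtain ⟨F, hF⟩ := LinearMap.exists_extend f
    have h1 : (fun g => f ((A.ρ g).restrict (h g) v)) = fun g => F (A.ρ g v.1) := by
      funext g
      rw [← hF]
      rfl
    exact h1 ▸ A.cont v.1 F

/-- The quotient by a stable subspace. -/
def CRep.quot (A : CRep E G) (N : Submodule E A.V) (h : ∀ g, ∀ v ∈ N, A.ρ g v ∈ N) :
    CRep E G where
  V := A.V ⧸ N
  ρ :=
    { toFun := fun g => N.mapQ N (A.ρ g) (fun v hv => h g v hv)
      map_one' := by
        ext x
        simp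
      map_mul' := fun a b => by
        ext x
        simp }
  cont v f := by
    obtain ⟨w, rfl⟩ := N.mkQ_surjective v
    exact A.cont w (f.comp N.mkQ)

end

end Pool.Agent.X307.LO
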