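import Pool.Agent.X307.LO.Twist

/-!
# Representations with the same restriction to a normal subgroup, inside given classes
-/

open TensorProduct

namespace Pool.Agent.X307.LO

section

variable {E : Type} [Field E] [TopologicalSpace E] {G : Type} [Group G] [TopologicalSpace G]

/-- `A` is a subrepresentation of `B`. -/
def IsSub (A B : CRep E G) : Prop :=
  ∃ f : A.V →ₗ[E] B.V, Function.Injective f ∧ ∀ g v, f (A.act g v) = B.act g (f v)

/-- The linear map `f` from `C` to the linear maps `A₁ → A` is equivariant. -/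
def HomEquivariant {A₁ A C : CRep E G} (f : C.V →ₗ[E] (A₁.V →ₗ[E] A.V)) : Prop :=
  ∀ g c v, f (C.act g c) (A₁.act g v) = A.act g (f c v)

/-- `C` is a subrepresentation of `Hom(A₁, A)`. -/
def IsHomSub (A₁ A C : CRep E G) : Prop :=
  ∃ f : C.V →ₗ[E] (A₁.V →ₗ[E] A.V), Function.Injective f ∧ HomEquivariant f

/-- The class `P` is closed under subrepresentations and quotients. -/
def ClosedSubQuot (P : CRep E G → Prop) : Prop :=
  (∀ A B, IsSub A B → P B → P A) ∧ ∀ A B, IsQuot A B → P A → P B

end

variable {E : Type} [Field E] [TopologicalSpace E] [IsTopologicalRing E]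
  {G : Type} [Group G] [TopologicalSpace G] {Q : Type} [Group Q] [TopologicalSpace Q]
  {G₁ : Type} [Group G₁] [TopologicalSpace G₁]

/-- Let `β : G → Q` be a quotient map and let `A₁` and `A` be representations of `G` with isomorphic
restrictions to the kernel of `β`. Then there is a representation `B` of `Q` such that `β^*B` is a
subrepresentation of `Hom(A₁, A)` and `A` is a quotient of `A₁ ⊗ β^*B`. -/
theorem exists_quot_hom [IsTopologicalGroup G] (A₁ A : CRep E G) (β : G →* Q)
    (hβ : Topology.IsQuotientMap β) (e : A₁.V ≃ₗ[E] A.V)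
    (he : ∀ n, β n = 1 → ∀ v, e (A₁.ρ n v) = A.ρ n (e v)) :
    ∃ B : CRep E Q, IsHomSub A₁ A (B.comap β hβ.continuous) ∧
      IsQuot (A₁.tensor (B.comap β hβ.continuous)) A := by
  let U := commSub A₁ A β
  let ρU : Representation E G U :=
    { toFun := fun g => (Representation.linHom A₁.ρ A.ρ g).restrict
        (fun φ hφ => commSub_stable A₁ A β g φ hφ)
      map_one' := by
        ext x
        simp [LinearMap.restrict_apply]
      map_mul' := fun a b => by
        ext x
        simp [LinearMap.restrict_apply] }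
  have hρU : ∀ g h, β g = β h → ρU g = ρU h := by
    intro g h hgh
    refine LinearMap.ext fun φ => Subtype.ext ?_
    exact commSub_trivial A₁ A β g h hgh φ.1 φ.2
  have hs : ∀ q, β (Function.surjInv hβ.surjective q) = q :=
    Function.surjInv_eq hβ.surjective
  let ρB : Representation E Q U :=
    { toFun := fun q => ρU (Function.surjInv hβ.surjective q)
      map_one' := by
        rw [hρU _ 1 (by rw [hs, map_one]), map_one]
      map_mul' := fun a b => by
        rw [← map_mul]
        exact hρU _ _ (by rw [hs, map_mul, hs, hs]) }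
  have hρB : ∀ g, ρB (β g) = ρU g := fun g => hρU _ _ (hs _)
  let B : CRep E Q :=
    { V := U
      ρ := ρB
      cont := by
        intro φ f
        rw [hβ.continuous_iff]
        obtain ⟨F, hF⟩ := LinearMap.exists_extend f
        have h1 : (fun q => f (ρB q φ)) ∘ β = fun g =>
            F (Representation.linHom A₁.ρ A.ρ g φ.1) := by
          funext g
          change f (ρB (β g) φ) = _
          rw [hρB, ← hF]
          rfl
        rw [h1]
        exact continuous_linHom A₁ A φ.1 F }
  refine ⟨B, ⟨U.subtype, U.injective_subtype, ?_⟩, ?_⟩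
  · intro g φ v
    change ((ρB (β g) φ : U) : A₁.V →ₗ[E] A.V) (A₁.ρ g v) = A.ρ g (φ.1 v)
    rw [hρB]
    change (Representation.linHom A₁.ρ A.ρ g φ.1) (A₁.ρ g v) = A.ρ g (φ.1 v)
    rw [Representation.linHom_apply]
    simp only [LinearMap.comp_apply]
    rw [← Module.End.mul_apply (A₁.ρ g⁻¹), ← map_mul, inv_mul_cancel, map_one,
      Module.End.one_apply]
  let m : A₁.V ⊗[E] U →ₗ[E] A.V :=
    TensorProduct.lift (LinearMap.flip U.subtype)
  have hm : ∀ (g : G) (x : A₁.V ⊗[E] U),
      m (TensorProduct.map (A₁.ρ g) (ρU g) x) = A.ρ g (m x) := by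
    intro g x
    induction x using TensorProduct.induction_on with
    | zero => simp
    | tmul v φ =>
      rw [TensorProduct.map_tmul]
      simp only [m, TensorProduct.lift.tmul, LinearMap.flip_apply, Submodule.subtype_apply]
      change (Representation.linHom A₁.ρ A.ρ g φ.1) (A₁.ρ g v) = A.ρ g (φ.1 v)
      rw [Representation.linHom_apply]
      simp only [LinearMap.comp_apply]
      rw [← Module.End.mul_apply (A₁.ρ g⁻¹), ← map_mul, inv_mul_cancel, map_one,
        Module.End.one_apply]
    | add x y hx hy => rw [map_add, map_add, hx, hy, map_add, map_add]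
  refine ⟨m, ?_, ?_⟩
  · intro y
    refine ⟨e.symm y ⊗ₜ[E] (⟨e.toLinearMap, he⟩ : U), ?_⟩
    change m (e.symm y ⊗ₜ[E] (⟨e.toLinearMap, he⟩ : U)) = y
    simp [m]
  · intro g x
    have h1 : (TensorProduct.map (A₁.ρ g) (ρB (β g)) : A₁.V ⊗[E] U →ₗ[E] A₁.V ⊗[E] U) =
        TensorProduct.map (A₁.ρ g) (ρU g) := by rw [hρB]
    change m ((TensorProduct.map (A₁.ρ g) (ρB (β g)) : A₁.V ⊗[E] U →ₗ[E] A₁.V ⊗[E] U) x) =
      A.ρ g (m x)
    rw [h1]
    exact hm g x

/-- If the irreducible representation `C` is a quotient of `α^*A ⊗ D` then it is a quotient of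
`α^*A' ⊗ D` for some irreducible `A'` in any class containing `A` which is closed under
subrepresentations and quotients. -/
theorem exists_irr_of (α : G →* G₁) (hα : Continuous α) (D C : CRep E G) (hC : Irr C)
    (P : CRep E G₁ → Prop) (hP : ClosedSubQuot P) (A : CRep E G₁) (hPA : P A)
    (h : IsQuot ((A.comap α hα).tensor D) C) :
    ∃ A' : CRep E G₁, P A' ∧ Irr A' ∧ IsQuot ((A'.comap α hα).tensor D) C := by
  obtain ⟨n, hn⟩ : ∃ n, Module.finrank E A.V = n := ⟨_, rfl⟩
  induction n using Nat.strong_induction_on generalizing A with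
  | _ n ih =>
    by_cases hA : Irr A
    · exact ⟨A, hPA, hA, h⟩
    obtain ⟨f, hf, hfe⟩ := h
    change (A.V ⊗[E] D.V →ₗ[E] C.V) at f
    have hfe' : ∀ (g : G) (x : A.V ⊗[E] D.V),
        f (TensorProduct.map (A.ρ (α g)) (D.ρ g) x) = C.ρ g (f x) := hfe
    have hnt : Nontrivial A.V := by
      by_contra hcon
      rw [not_nontrivial_iff_subsingleton] at hcon
      have : Subsingleton (A.V ⊗[E] D.V) := inferInstance
      have h1 : Subsingleton C.V := Function.Surjective.subsingleton (f := f) hf
      exact (not_nontrivial_iff_subsingleton.mpr h1) hC.1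
    simp only [Irr, hnt, true_and, not_forall, not_or] at hA
    obtain ⟨N, hN, hbot, htop⟩ := hA
    let ρN : G₁ → (N →ₗ[E] N) := fun g => (A.ρ g).restrict (hN g)
    let f₀ : N ⊗[E] D.V →ₗ[E] C.V := f ∘ₗ TensorProduct.map N.subtype LinearMap.id
    have hf₀ : ∀ (g : G) (x : N ⊗[E] D.V),
        f₀ (TensorProduct.map (ρN (α g)) (D.ρ g) x) = C.ρ g (f₀ x) := by
      intro g x
      have h1 : TensorProduct.map N.subtype LinearMap.id
          (TensorProduct.map (ρN (α g)) (D.ρ g) x) =
          TensorProduct.map (A.ρ (α g)) (D.ρ g)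
            (TensorProduct.map N.subtype LinearMap.id x) := by
        induction x using TensorProduct.induction_on with
        | zero => simp
        | tmul v w => rfl
        | add x y hx hy => simp only [map_add, hx, hy]
      change f (TensorProduct.map N.subtype LinearMap.id
          (TensorProduct.map (ρN (α g)) (D.ρ g) x)) = _
      rw [h1, hfe']
      rfl
    have hrange : LinearMap.range f₀ = ⊥ ∨ LinearMap.range f₀ = ⊤ := by
      refine hC.2 _ ?_
      rintro g _ ⟨x, rfl⟩
      exact ⟨_, hf₀ g x⟩
    rcases hrange with h0 | h1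
    · -- `f` factors through the quotient by `N`
      have hker : ∀ x ∈ N, TensorProduct.curry f x = 0 := by
        intro x hx
        refine LinearMap.ext fun w => ?_
        have : f₀ ((⟨x, hx⟩ : N) ⊗ₜ[E] w) ∈ LinearMap.range f₀ := ⟨_, rfl⟩
        rw [h0, Submodule.mem_bot] at this
        exact this
      let q : (A.V ⧸ N) ⊗[E] D.V →ₗ[E] C.V :=
        TensorProduct.lift (N.liftQ (TensorProduct.curry f) hker)
      have hq : ∀ (v : A.V) (w : D.V), q (N.mkQ v ⊗ₜ[E] w) = f (v ⊗ₜ[E] w) := by
        intro v w
        simp [q]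
      have hqf : ∀ x, q (TensorProduct.map N.mkQ LinearMap.id x) = f x := by
        intro x
        induction x using TensorProduct.induction_on with
        | zero => simp
        | tmul v w => exact hq v w
        | add x y hx hy => simp only [map_add, hx, hy]
      have hsurj : Function.Surjective q := fun y => by
        obtain ⟨x, hx⟩ := hf y
        exact ⟨_, (hqf x).trans hx⟩
      let ρQ : G₁ → ((A.V ⧸ N) →ₗ[E] (A.V ⧸ N)) := fun g =>
        N.mapQ N (A.ρ g) (fun v hv => hN g v hv)
      have heq : ∀ (g : G) (x : (A.V ⧸ N) ⊗[E] D.V),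
          q (TensorProduct.map (ρQ (α g)) (D.ρ g) x) = C.ρ g (q x) := by
        intro g x
        induction x using TensorProduct.induction_on with
        | zero => simp
        | tmul v w =>
          obtain ⟨v, rfl⟩ := N.mkQ_surjective v
          have h2 : ρQ (α g) (N.mkQ v) = N.mkQ (A.ρ (α g) v) := rfl
          rw [TensorProduct.map_tmul, h2, hq, hq, ← hfe']
          rfl
        | add x y hx hy => simp only [map_add, hx, hy]
      have hlt : Module.finrank E (A.V ⧸ N) < n := by
        have h3 := Submodule.finrank_quotient_add_finrank N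
        have h4 : 0 < Module.finrank E N := by
          have : Nontrivial N := Submodule.nontrivial_iff_ne_bot.mpr hbot
          exact Module.finrank_pos
        omega
      exact ih _ hlt (A.quot N hN)
        (hP.2 A _ ⟨N.mkQ, N.mkQ_surjective, fun _ _ => rfl⟩ hPA) ⟨q, hsurj, heq⟩ rfl
    · have hlt : Module.finrank E N < n := hn ▸ Submodule.finrank_lt htop
      refine ih _ hlt (A.sub N hN)
        (hP.1 _ A ⟨N.subtype, N.injective_subtype, fun _ _ => rfl⟩ hPA) ⟨f₀, ?_, hf₀⟩ rfl
      exact (LinearMap.range_eq_top (f := f₀)).mp h1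

end Pool.Agent.X307.LO
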