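import Pool.Agent.X307.LO.Key

/-!
# Irreducible quotients of tensor products
-/

open TensorProduct

namespace Pool.Agent.X307.LO

variable {E : Type} [Field E] [TopologicalSpace E] [IsTopologicalRing E]
  {G : Type} [Group G] [TopologicalSpace G] {G₁ : Type} [Group G₁] [TopologicalSpace G₁]
  {G₂ : Type} [Group G₂] [TopologicalSpace G₂]

/-- If the irreducible representation `C` is a quotient of `α^*A ⊗ D` then it is a quotient of
`α^*A' ⊗ D` for some irreducible `A'`. -/
theorem exists_irr (α : G →* G₁) (hα : Continuous α) (D C : CRep E G) (hC : Irr C)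
    (A : CRep E G₁) (h : IsQuot ((A.comap α hα).tensor D) C) :
    ∃ A' : CRep E G₁, Irr A' ∧ IsQuot ((A'.comap α hα).tensor D) C := by
  obtain ⟨n, hn⟩ : ∃ n, Module.finrank E A.V = n := ⟨_, rfl⟩
  induction n using Nat.strong_induction_on generalizing A with
  | _ n ih =>
    by_cases hA : Irr A
    · exact ⟨A, hA, h⟩
    obtain ⟨f, hf, hfe⟩ := h
    change (A.V ⊗[E] D.V →ₗ[E] C.V) at f
    have hfe' : ∀ (g : G) (x : A.V ⊗[E] D.V),
        f (TensorProduct.map (A.ρ (α g)) (D.ρ g) x) = C.ρ g (f x) := hfe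
    have hnt : Nontrivial A.V := by
      by_contra hcon
      rw [not_nontrivial_iff_subsingleton] at hcon
      have : Subsingleton (A.V ⊗[E] D.V) := inferInstance
      have h1 : Subsingleton C.V := Function.Surjective.subsingleton (f := f) hf
      exact (not_nontrivial_iff_subsingleton.mpr h1) hC.1
    simp only [Irr, hnt, true_and, not_forall, not_or] at hA
    obtain ⟨N, hN, hbot, htop⟩ := hA
    let ρN : G₁ → (N →ₗ[E] N) := fun g => (A.ρ g).restrict (hN g)
    let f₀ : N ⊗[E] D.V →ₗ[E] C.V := f ∘ₗ TensorProduct.map N.subtype LinearMap.id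
    have hf₀ : ∀ (g : G) (x : N ⊗[E] D.V),
        f₀ (TensorProduct.map (ρN (α g)) (D.ρ g) x) = C.ρ g (f₀ x) := by
      intro g x
      have h1 : TensorProduct.map N.subtype LinearMap.id
          (TensorProduct.map (ρN (α g)) (D.ρ g) x) =
          TensorProduct.map (A.ρ (α g)) (D.ρ g)
            (TensorProduct.map N.subtype LinearMap.id x) := by
        induction x using TensorProduct.induction_on with
        | zero => simp
        | tmul v w => rfl
        | add x y hx hy => simp only [map_add, hx, hy]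
      change f (TensorProduct.map N.subtype LinearMap.id
          (TensorProduct.map (ρN (α g)) (D.ρ g) x)) = _
      rw [h1, hfe']
      rfl
    have hrange : LinearMap.range f₀ = ⊥ ∨ LinearMap.range f₀ = ⊤ := by
      refine hC.2 _ ?_
      rintro g _ ⟨x, rfl⟩
      exact ⟨_, hf₀ g x⟩
    rcases hrange with h0 | h1
    · -- `f` factors through the quotient by `N`
      have hker : ∀ x ∈ N, TensorProduct.curry f x = 0 := by
        intro x hx
        refine LinearMap.ext fun w => ?_
        have : f₀ ((⟨x, hx⟩ : N) ⊗ₜ[E] w) ∈ LinearMap.range f₀ := ⟨_, rfl⟩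
        rw [h0, Submodule.mem_bot] at this
        exact this
      let q : (A.V ⧸ N) ⊗[E] D.V →ₗ[E] C.V :=
        TensorProduct.lift (N.liftQ (TensorProduct.curry f) hker)
      have hq : ∀ (v : A.V) (w : D.V), q (N.mkQ v ⊗ₜ[E] w) = f (v ⊗ₜ[E] w) := by
        intro v w
        simp [q]
      have hqf : ∀ x, q (TensorProduct.map N.mkQ LinearMap.id x) = f x := by
        intro x
        induction x using TensorProduct.induction_on with
        | zero => simp
        | tmul v w => exact hq v w
        | add x y hx hy => simp only [map_add, hx, hy]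
      have hsurj : Function.Surjective q := fun y => by
        obtain ⟨x, hx⟩ := hf y
        exact ⟨_, (hqf x).trans hx⟩
      let ρQ : G₁ → ((A.V ⧸ N) →ₗ[E] (A.V ⧸ N)) := fun g =>
        N.mapQ N (A.ρ g) (fun v hv => hN g v hv)
      have heq : ∀ (g : G) (x : (A.V ⧸ N) ⊗[E] D.V),
          q (TensorProduct.map (ρQ (α g)) (D.ρ g) x) = C.ρ g (q x) := by
        intro g x
        induction x using TensorProduct.induction_on with
        | zero => simp
        | tmul v w =>
          obtain ⟨v, rfl⟩ := N.mkQ_surjective v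
          have h2 : ρQ (α g) (N.mkQ v) = N.mkQ (A.ρ (α g) v) := rfl
          rw [TensorProduct.map_tmul, h2, hq, hq, ← hfe']
          rfl
        | add x y hx hy => simp only [map_add, hx, hy]
      have hlt : Module.finrank E (A.V ⧸ N) < n := by
        have h3 := Submodule.finrank_quotient_add_finrank N
        have h4 : 0 < Module.finrank E N := by
          have : Nontrivial N := Submodule.nontrivial_iff_ne_bot.mpr hbot
          exact Module.finrank_pos
        omega
      exact ih _ hlt (A.quot N hN) ⟨q, hsurj, heq⟩ rfl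
    · have hlt : Module.finrank E N < n := hn ▸ Submodule.finrank_lt htop
      refine ih _ hlt (A.sub N hN) ⟨f₀, ?_, hf₀⟩ rfl
      exact (LinearMap.range_eq_top (f := f₀)).mp h1

theorem isQuot_comm {A B C : CRep E G} (h : IsQuot (A.tensor B) C) : IsQuot (B.tensor A) C := by
  obtain ⟨f, hf, hfe⟩ := h
  change (A.V ⊗[E] B.V →ₗ[E] C.V) at f
  have hfe' : ∀ (g : G) (x : A.V ⊗[E] B.V),
      f (TensorProduct.map (A.ρ g) (B.ρ g) x) = C.ρ g (f x) := hfe
  let f' : B.V ⊗[E] A.V →ₗ[E] C.V := f ∘ₗ (TensorProduct.comm E B.V A.V).toLinearMap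
  refine ⟨f', hf.comp (TensorProduct.comm E B.V A.V).surjective, ?_⟩
  have h1 : ∀ (g : G) (x : B.V ⊗[E] A.V),
      f' (TensorProduct.map (B.ρ g) (A.ρ g) x) = C.ρ g (f' x) := by
    intro g x
    change f ((TensorProduct.comm E B.V A.V) (TensorProduct.map (B.ρ g) (A.ρ g) x)) =
      C.ρ g (f ((TensorProduct.comm E B.V A.V) x))
    rw [← hfe']
    congr 1
    induction x using TensorProduct.induction_on with
    | zero => simp
    | tmul v w => simp
    | add x y hx hy => simp only [map_add, hx, hy]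
  exact h1

/-- If the irreducible representation `C` is a quotient of `α^*A ⊗ β^*B` then it is a quotient of
`α^*A' ⊗ β^*B'` for some irreducible `A'` and `B'`. -/
theorem exists_irr_irr (α : G →* G₁) (hα : Continuous α) (β : G →* G₂) (hβ : Continuous β)
    (C : CRep E G) (hC : Irr C) (A : CRep E G₁) (B : CRep E G₂)
    (h : IsQuot ((A.comap α hα).tensor (B.comap β hβ)) C) :
    ∃ (A' : CRep E G₁) (B' : CRep E G₂), Irr A' ∧ Irr B' ∧
      IsQuot ((A'.comap α hα).tensor (B'.comap β hβ)) C := by
  obtain ⟨A', hA', h1⟩ := exists_irr α hα _ C hC A h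
  obtain ⟨B', hB', h2⟩ := exists_irr β hβ _ C hC B (isQuot_comm h1)
  exact ⟨A', B', hA', hB', isQuot_comm h2⟩

/-- Twists of a quotient of a tensor product. -/
theorem isQuot_twist (A B C : CRep E G) (χ ψ : CChar E G) (h : IsQuot (A.tensor B) C) :
    IsQuot ((A.twist χ).tensor (B.twist ψ)) (C.twist (χ.mul ψ)) := by
  obtain ⟨f, hf, hfe⟩ := h
  change (A.V ⊗[E] B.V →ₗ[E] C.V) at f
  have hfe' : ∀ (g : G) (x : A.V ⊗[E] B.V),
      f (TensorProduct.map (A.ρ g) (B.ρ g) x) = C.ρ g (f x) := hfe
  have h1 : ∀ (g : G) (x : A.V ⊗[E] B.V),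
      f (TensorProduct.map (χ.χ g • A.ρ g) (ψ.χ g • B.ρ g) x) =
        ((χ.χ g * ψ.χ g) • C.ρ g) (f x) := by
    intro g x
    rw [TensorProduct.map_smul_left, TensorProduct.map_smul_right]
    simp only [LinearMap.smul_apply, map_smul, hfe', smul_smul]
  exact ⟨f, hf, h1⟩

theorem Irr.twist {A : CRep E G} (hA : Irr A) (χ : CChar E G) : Irr (A.twist χ) := by
  refine ⟨hA.1, fun N hN => hA.2 N fun g v hv => ?_⟩
  have h1 : χ.χ g • A.ρ g v ∈ N := hN g v hv
  have h2 : χ.χ g⁻¹ * χ.χ g = 1 := by rw [← map_mul, inv_mul_cancel, map_one]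
  have h3 : (χ.χ g⁻¹ • χ.χ g • A.ρ g v : A.V) ∈ N := N.smul_mem (χ.χ g⁻¹) h1
  have h4 : (χ.χ g⁻¹ • χ.χ g • A.ρ g v : A.V) = A.ρ g v := by rw [smul_smul, h2, one_smul]
  change A.ρ g v ∈ N
  exact h4 ▸ h3

end Pool.Agent.X307.LO
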