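import Pool.Agent.X307.LO.Defs

/-!
# Representations with the same restriction to a normal subgroup
-/

open TensorProduct

namespace Pool.Agent.X307.LO

variable {E : Type} [Field E] [TopologicalSpace E] [IsTopologicalRing E]
  {G : Type} [Group G] [TopologicalSpace G] {Q : Type} [Group Q] [TopologicalSpace Q]

/-- Matrix coefficients of the representation on linear maps are continuous. -/
theorem continuous_linHom [IsTopologicalGroup G] (A₁ A : CRep E G) (φ : A₁.V →ₗ[E] A.V)
    (F : Module.Dual E (A₁.V →ₗ[E] A.V)) :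
    Continuous fun g => F (Representation.linHom A₁.ρ A.ρ g φ) := by
  let b := Module.finBasis E A₁.V
  let c := Module.finBasis E A.V
  have h1 : ∀ ψ : A₁.V →ₗ[E] A.V, ψ = ∑ j, ∑ i, c.repr (ψ (b j)) i •
      (b.coord j).smulRight (c i) := by
    intro ψ
    refine b.ext fun k => ?_
    simp only [LinearMap.sum_apply, LinearMap.smul_apply, LinearMap.smulRight_apply,
      Module.Basis.coord_apply, Module.Basis.repr_self]
    rw [Finset.sum_eq_single k]
    · simp only [Finsupp.single_eq_same, one_smul]
      exact (c.sum_repr (ψ (b k))).symm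
    · intro j _ hj
      refine Finset.sum_eq_zero fun i _ => ?_
      rw [Finsupp.single_eq_of_ne hj, zero_smul, smul_zero]
    · simp
  have h2 : (fun g => F (Representation.linHom A₁.ρ A.ρ g φ)) = fun g =>
      ∑ j, ∑ i, (∑ k, b.repr (A₁.ρ g⁻¹ (b j)) k * c.repr (A.ρ g (φ (b k))) i) *
        F ((b.coord j).smulRight (c i)) := by
    funext g
    conv_lhs => rw [h1 (Representation.linHom A₁.ρ A.ρ g φ)]
    rw [map_sum]
    refine Finset.sum_congr rfl fun j _ => ?_
    rw [map_sum]
    refine Finset.sum_congr rfl fun i _ => ?_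
    rw [map_smul, smul_eq_mul]
    congr 1
    rw [Representation.linHom_apply, LinearMap.comp_apply, LinearMap.comp_apply]
    conv_lhs => rw [← b.sum_repr (A₁.ρ g⁻¹ (b j))]
    simp only [map_sum, map_smul, Finsupp.coe_finset_sum, Finset.sum_apply, Finsupp.coe_smul,
      Pi.smul_apply, smul_eq_mul]
  rw [h2]
  refine continuous_finset_sum _ fun j _ => continuous_finset_sum _ fun i _ =>
    (continuous_finset_sum _ fun k _ => ?_).mul continuous_const
  exact ((continuous_coord A₁ (b j) k).comp continuous_inv).mul (continuous_coord A (φ (b k)) i)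

/-- The linear maps which commute with the action of the kernel of `β`. -/
def commSub (A₁ A : CRep E G) (β : G →* Q) : Submodule E (A₁.V →ₗ[E] A.V) where
  carrier := {φ | ∀ n, β n = 1 → ∀ v, φ (A₁.ρ n v) = A.ρ n (φ v)}
  add_mem' := by
    intro a b ha hb n hn v
    simp [ha n hn v, hb n hn v]
  zero_mem' := by
    intro n _ v
    simp
  smul_mem' := by
    intro c a ha n hn v
    simp [ha n hn v]

theorem commSub_stable (A₁ A : CRep E G) (β : G →* Q) (g : G) (φ : A₁.V →ₗ[E] A.V)
    (hφ : φ ∈ commSub A₁ A β) : Representation.linHom A₁.ρ A.ρ g φ ∈ commSub A₁ A β := by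
  intro n hn v
  rw [Representation.linHom_apply]
  simp only [LinearMap.comp_apply]
  have h1 : A₁.ρ g⁻¹ (A₁.ρ n v) = A₁.ρ (g⁻¹ * n * g) (A₁.ρ g⁻¹ v) := by
    rw [← Module.End.mul_apply, ← Module.End.mul_apply, ← map_mul, ← map_mul]
    congr 2
    group
  have h2 : β (g⁻¹ * n * g) = 1 := by
    rw [map_mul, map_mul, hn, mul_one, ← map_mul, inv_mul_cancel, map_one]
  rw [h1, hφ _ h2]
  rw [← Module.End.mul_apply, ← Module.End.mul_apply, ← map_mul, ← map_mul]
  congr 2
  group

theorem commSub_trivial (A₁ A : CRep E G) (β : G →* Q) (g h : G) (hgh : β g = β h)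
    (φ : A₁.V →ₗ[E] A.V) (hφ : φ ∈ commSub A₁ A β) :
    Representation.linHom A₁.ρ A.ρ g φ = Representation.linHom A₁.ρ A.ρ h φ := by
  have h1 : β (h⁻¹ * g) = 1 := by rw [map_mul, map_inv, hgh, inv_mul_cancel]
  ext v
  rw [Representation.linHom_apply, Representation.linHom_apply]
  simp only [LinearMap.comp_apply]
  have h2 : A₁.ρ h⁻¹ v = A₁.ρ (h⁻¹ * g) (A₁.ρ g⁻¹ v) := by
    rw [← Module.End.mul_apply, ← map_mul]
    congr 2
    group
  rw [h2, hφ _ h1]
  rw [← Module.End.mul_apply, ← map_mul]
  congr 2
  group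

/-- Let `β : G → Q` be a quotient map and let `A₁` and `A` be representations of `G` with isomorphic
restrictions to the kernel of `β`. Then there is a representation `B` of `Q` such that `A` is a
quotient of `A₁ ⊗ β^*B`. -/
theorem exists_quot [IsTopologicalGroup G] (A₁ A : CRep E G) (β : G →* Q)
    (hβ : Topology.IsQuotientMap β) (e : A₁.V ≃ₗ[E] A.V)
    (he : ∀ n, β n = 1 → ∀ v, e (A₁.ρ n v) = A.ρ n (e v)) :
    ∃ B : CRep E Q, IsQuot (A₁.tensor (B.comap β hβ.continuous)) A := by
  let U := commSub A₁ A β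
  let ρU : Representation E G U :=
    { toFun := fun g => (Representation.linHom A₁.ρ A.ρ g).restrict
        (fun φ hφ => commSub_stable A₁ A β g φ hφ)
      map_one' := by
        ext x
        simp [LinearMap.restrict_apply]
      map_mul' := fun a b => by
        ext x
        simp [LinearMap.restrict_apply] }
  have hρU : ∀ g h, β g = β h → ρU g = ρU h := by
    intro g h hgh
    refine LinearMap.ext fun φ => Subtype.ext ?_
    exact commSub_trivial A₁ A β g h hgh φ.1 φ.2
  have hs : ∀ q, β (Function.surjInv hβ.surjective q) = q :=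
    Function.surjInv_eq hβ.surjective
  let ρB : Representation E Q U :=
    { toFun := fun q => ρU (Function.surjInv hβ.surjective q)
      map_one' := by
        rw [hρU _ 1 (by rw [hs, map_one]), map_one]
      map_mul' := fun a b => by
        rw [← map_mul]
        exact hρU _ _ (by rw [hs, map_mul, hs, hs]) }
  have hρB : ∀ g, ρB (β g) = ρU g := fun g => hρU _ _ (hs _)
  let B : CRep E Q :=
    { V := U
      ρ := ρB
      cont := by
        intro φ f
        rw [hβ.continuous_iff]
        obtain ⟨F, hF⟩ := LinearMap.exists_extend f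
        have h1 : (fun q => f (ρB q φ)) ∘ β = fun g =>
            F (Representation.linHom A₁.ρ A.ρ g φ.1) := by
          funext g
          change f (ρB (β g) φ) = _
          rw [hρB, ← hF]
          rfl
        rw [h1]
        exact continuous_linHom A₁ A φ.1 F }
  refine ⟨B, ?_⟩
  let m : A₁.V ⊗[E] U →ₗ[E] A.V :=
    TensorProduct.lift (LinearMap.flip U.subtype)
  have hm : ∀ (g : G) (x : A₁.V ⊗[E] U),
      m (TensorProduct.map (A₁.ρ g) (ρU g) x) = A.ρ g (m x) := by
    intro g x
    induction x using TensorProduct.induction_on with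
    | zero => simp
    | tmul v φ =>
      rw [TensorProduct.map_tmul]
      simp only [m, TensorProduct.lift.tmul, LinearMap.flip_apply, Submodule.subtype_apply]
      change (Representation.linHom A₁.ρ A.ρ g φ.1) (A₁.ρ g v) = A.ρ g (φ.1 v)
      rw [Representation.linHom_apply]
      simp only [LinearMap.comp_apply]
      rw [← Module.End.mul_apply (A₁.ρ g⁻¹), ← map_mul, inv_mul_cancel, map_one,
        Module.End.one_apply]
    | add x y hx hy => rw [map_add, map_add, hx, hy, map_add, map_add]
  refine ⟨m, ?_, ?_⟩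
  · intro y
    refine ⟨e.symm y ⊗ₜ[E] (⟨e.toLinearMap, he⟩ : U), ?_⟩
    change m (e.symm y ⊗ₜ[E] (⟨e.toLinearMap, he⟩ : U)) = y
    simp [m]
  · intro g x
    have h1 : (TensorProduct.map (A₁.ρ g) (ρB (β g)) : A₁.V ⊗[E] U →ₗ[E] A₁.V ⊗[E] U) =
        TensorProduct.map (A₁.ρ g) (ρU g) := by rw [hρB]
    change m ((TensorProduct.map (A₁.ρ g) (ρB (β g)) : A₁.V ⊗[E] U →ₗ[E] A₁.V ⊗[E] U) x) =
      A.ρ g (m x)
    rw [h1]
    exact hm g x

end Pool.Agent.X307.LO
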