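import Pool.Agent.X307.LO.Irr

/-!
# Twists and quotients of tensor products, as relations
-/

open TensorProduct

namespace Pool.Agent.X307.LO

variable {E : Type} [Field E] [TopologicalSpace E] {G : Type} [Group G] [TopologicalSpace G]

/-- `B` is isomorphic to the twist of `A` by the character `χ`. -/
def IsTwist (A : CRep E G) (χ : CChar E G) (B : CRep E G) : Prop :=
  ∃ e : A.V ≃ₗ[E] B.V, ∀ g v, B.act g (e v) = χ.χ g • e (A.act g v)

/-- The values of the bilinear map `f` span `C`. -/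
def Spans {A B C : CRep E G} (f : A.V →ₗ[E] B.V →ₗ[E] C.V) : Prop :=
  Submodule.span E {x | ∃ v w, f v w = x} = ⊤

/-- The bilinear map `f` is equivariant. -/
def Equivariant {A B C : CRep E G} (f : A.V →ₗ[E] B.V →ₗ[E] C.V) : Prop :=
  ∀ g v w, f (A.act g v) (B.act g w) = C.act g (f v w)

/-- `C` is isomorphic to a quotient of `A ⊗ B`: there is an equivariant bilinear map
`A × B → C` whose values span `C`. -/
def IsTensorQuot (A B C : CRep E G) : Prop :=
  ∃ f : A.V →ₗ[E] B.V →ₗ[E] C.V, Spans f ∧ Equivariant f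

theorem isTwist_twist [IsTopologicalRing E] (A : CRep E G) (χ : CChar E G) :
    IsTwist A χ (A.twist χ) := ⟨LinearEquiv.refl _ _, fun _ _ => rfl⟩

theorem Irr.of_isTwist {A B : CRep E G} (hA : Irr A) {χ : CChar E G} (h : IsTwist A χ B) :
    Irr B := by
  obtain ⟨e, he⟩ := h
  have hnt := hA.1
  refine ⟨e.symm.toEquiv.nontrivial, fun N hN => ?_⟩
  have hst : ∀ g, ∀ v ∈ N.comap e.toLinearMap, A.ρ g v ∈ N.comap e.toLinearMap := by
    intro g v hv
    rw [Submodule.mem_comap] at hv ⊢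
    have h1 : χ.χ g • e (A.ρ g v) ∈ N := he g v ▸ hN g _ hv
    have h2 : χ.χ g⁻¹ * χ.χ g = 1 := by rw [← map_mul, inv_mul_cancel, map_one]
    have h3 := N.smul_mem (χ.χ g⁻¹) h1
    rwa [smul_smul, h2, one_smul] at h3
  rcases hA.2 (N.comap e.toLinearMap) hst with h | h
  · left
    rw [eq_bot_iff]
    intro x hx
    have h1 : e.symm x ∈ N.comap e.toLinearMap := by
      rw [Submodule.mem_comap]
      simpa using hx
    rw [h, Submodule.mem_bot] at h1
    rw [Submodule.mem_bot]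
    simpa using h1
  · right
    rw [eq_top_iff]
    intro x _
    have h1 : e.symm x ∈ N.comap e.toLinearMap := h ▸ Submodule.mem_top
    rw [Submodule.mem_comap] at h1
    simpa using h1

/-- Twists of the factors of a tensor product give a twist of a quotient. -/
theorem isTensorQuot_twist [IsTopologicalRing E] {A B C A₂ B₂ : CRep E G} {χ ψ : CChar E G}
    (h : IsQuot (A.tensor B) C) (hA : IsTwist A χ A₂) (hB : IsTwist B ψ B₂) :
    IsTensorQuot A₂ B₂ (C.twist (χ.mul ψ)) := by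
  obtain ⟨f, hf, hfe⟩ := h
  change (A.V ⊗[E] B.V →ₗ[E] C.V) at f
  have hfe' : ∀ (g : G) (x : A.V ⊗[E] B.V),
      f (TensorProduct.map (A.ρ g) (B.ρ g) x) = C.ρ g (f x) := hfe
  obtain ⟨e₁, he₁⟩ := hA
  obtain ⟨e₂, he₂⟩ := hB
  let F : A₂.V →ₗ[E] B₂.V →ₗ[E] C.V :=
    ((TensorProduct.curry f).compl₂ e₂.symm.toLinearMap).comp e₁.symm.toLinearMap
  have hF : ∀ v w, F v w = f (e₁.symm v ⊗ₜ[E] e₂.symm w) := fun v w => rfl
  have hspan : Submodule.span E {x | ∃ v w, F v w = x} = ⊤ := by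
    have hmem : ∀ x : A.V ⊗[E] B.V, f x ∈ Submodule.span E {x | ∃ v w, F v w = x} := by
      intro x
      induction x using TensorProduct.induction_on with
      | zero => simp
      | tmul v w =>
        refine Submodule.subset_span ⟨e₁ v, e₂ w, ?_⟩
        rw [hF, LinearEquiv.symm_apply_apply, LinearEquiv.symm_apply_apply]
      | add x y hx hy =>
        rw [map_add]
        exact Submodule.add_mem _ hx hy
    rw [eq_top_iff]
    intro c _
    obtain ⟨x, rfl⟩ := hf c
    exact hmem x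
  have heq : ∀ g v w, F (A₂.ρ g v) (B₂.ρ g w) = (χ.χ g * ψ.χ g) • C.ρ g (F v w) := by
    intro g v w
    obtain ⟨v, rfl⟩ := e₁.surjective v
    obtain ⟨w, rfl⟩ := e₂.surjective w
    have h1 : A₂.ρ g (e₁ v) = χ.χ g • e₁ (A.ρ g v) := he₁ g v
    have h2 : B₂.ρ g (e₂ w) = ψ.χ g • e₂ (B.ρ g w) := he₂ g w
    rw [h1, h2, hF, hF]
    simp only [map_smul, LinearEquiv.symm_apply_apply, LinearMap.smul_apply]
    rw [TensorProduct.smul_tmul_smul, map_smul, ← hfe' g (v ⊗ₜ[E] w), TensorProduct.map_tmul]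
  exact ⟨F, hspan, heq⟩

theorem isTwist_comap [IsTopologicalRing E] {H : Type} [Group H] [TopologicalSpace H]
    {A B : CRep E G} {χ : CChar E G} (h : IsTwist A χ B) (φ : H →* G) (hφ : Continuous φ) :
    IsTwist (A.comap φ hφ) (χ.comap φ hφ) (B.comap φ hφ) := by
  obtain ⟨e, he⟩ := h
  exact ⟨e, fun g v => he (φ g) v⟩

end Pool.Agent.X307.LO
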